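import Pool.Agent.Helper93_BED.Fin
import Pool.Agent.Helper27_BEJ.EEB
import Pool.Agent.Helper21_BEJ.QDE
import Pool.Agent.Helper77_BEJ.YDE
import Pool.Agent.Helper52_BEJ.YLZ
import Pool.Agent.Helper34_BEJ.WAS
import Pool.Agent.Helper23_BEJ.YJ0
import Pool.Agent.Helper75_BEJ.ZAS
import Pool.Agent.Helper10_BEJ.PI2
import Pool.Agent.Helper69_BEJ.DIO
import Pool.Agent.Helper36_BEJ.NRX
import Pool.Agent.Helper49_BEJ.JSB
import Pool.Agent.Helper50_BEJ.JAB
import Pool.Agent.Helper95_BEJ.ORX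
import Pool.Agent.Helper6_BEJ.DSA

/-!
# Squad BEJ (MP_be01ff_an): all modules together. Every disc of the plane, every even `α`.
-/

namespace Pool.Agent.BEJ.Fin

open Pool.Agent Pool.Agent.BED Pool.Agent.BEJ
open Set Filter Topology MeasureTheory
open scoped InnerProductSpace ENNReal

noncomputable section

theorem qde : QdeStmt := H21.qde H27.eeb

theorem yde : YdeStmt := H77.yde qde

theorem ylz : YlzStmt := H52.ylz H27.eeb qde

theorem was : WasStmt := H34.was H27.eeb

theorem yj0 : Yj0Stmt := H23.yj0 BED.H65.jde yde ylz was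

theorem zas : ZasStmt := H75.zas yde was yj0

theorem dio : DioStmt := H69.dio H10.pi2

theorem nrx : NrxStmt := H36.nrx zas dio

theorem jsb : JsbStmt := H49.jsb BED.H24.jta H27.eeb yj0

theorem jab : JabStmt := H50.jab BED.H24.jta BED.H65.jde

theorem orx : OrxStmt := H95.orx BED.Fin.jlb jsb jab

/-- Every disc, every even `α` (version with `Lp`). -/
theorem dsa : DsaStmt := H6.dsa BED.Fin.fn3 BED.Fin.spd BED.H93.phr nrx jab orx

/-- Every disc, every even `α`. -/
theorem disc (R a : ℝ) (p : ℕ) (hR : 0 < R) (ha : 0 < a) (hp : 1 ≤ p) :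
    BE01F.SharpRate (Metric.ball (0 : EuclideanSpace ℝ (Fin 2)) R) a ((2 * p : ℕ) : ℝ) :=
  Helper70BE01Conv.sharp_of (dsa R a p hR ha hp)

end

end Pool.Agent.BEJ.Fin
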